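import Mathlib
import Pool.Agent.Q215.Namba

/-!
# The Laver-like Namba forcing adds no new cofinal branch to an `ω₁`-tree

The forcing relation is the one of `Pool.Agent.Helper669.Forcing`: a sentence is the set of the
conditions which force it; `fnot`, `fand`, `fall` are the primitive connectives and `fimp`, `fex`
are defined from them classically; a name for a subset of a ground model set `T` is a map `B`
sending `t : T` to a set of conditions, and `meets (B t)` says that `t` belongs to the named set.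
-/

open Cardinal Set Ordinal

namespace Pool.Agent.Results.MP_096ca0_lc.NoNewBranch

open Pool.Agent.Helper669.Forcing Q215.Namba

/-- The height of a node: its rank in the well-founded relation `<`. -/
noncomputable def ht {T : Type} [PartialOrder T] [WellFoundedLT T] (t : T) : Ordinal.{0} :=
  IsWellFounded.rank (fun a b : T => a < b) t

/-- `T` is an `ω₁`-tree: the predecessors of a node are linearly (hence well) ordered, all
heights are countable, every countable ordinal is the height of a node, and every level is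
countable. -/
structure IsOmegaOneTree (T : Type) [PartialOrder T] [WellFoundedLT T] : Prop where
  pred : ∀ t a b : T, a ≤ t → b ≤ t → a ≤ b ∨ b ≤ a
  height_lt : ∀ t : T, ht t < ω_ 1
  level_nonempty : ∀ α : Ordinal.{0}, α < ω_ 1 → ∃ t : T, ht t = α
  level_countable : ∀ α : Ordinal.{0}, {t : T | ht t = α}.Countable

/-- The set named by `B` is a cofinal branch: it is linearly ordered, downward closed, and it
meets every level. -/
def IsCofinalBranch {P T : Type} [Preorder P] [PartialOrder T] [WellFoundedLT T]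
    (B : T → Set P) : Set P :=
  fand (fall fun s : T => fall fun t : T => fall fun _ : ¬ (s ≤ t ∨ t ≤ s) =>
      fnot (fand (meets (B s)) (meets (B t))))
    (fand (fall fun s : T => fall fun t : T => fall fun _ : s ≤ t =>
        fimp (meets (B t)) (meets (B s)))
      (fall fun α : Ordinal.{0} => fall fun _ : α < ω_ 1 =>
        fex fun t : T => fand (fground (ht t = α)) (meets (B t))))

/-- The set named by `B` is not in the ground model: it differs from every ground model set. -/
def IsNew {P T : Type} [Preorder P] (B : T → Set P) : Set P :=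
  fall fun S : Set T => fnot (fand (fall fun t : T => fall fun _ : t ∈ S => meets (B t))
    (fall fun t : T => fall fun _ : t ∉ S => fnot (meets (B t))))

section

variable {T : Type} [PartialOrder T] [WellFoundedLT T]

lemma ht_lt {s t : T} (h : s < t) : ht s < ht t := IsWellFounded.rank_lt_of_rel h

/-! ### Consequences of a condition forcing that `B` is a new branch -/

/-- The abstract hypotheses on a condition `p` and the map `F t = meets (B t)`. -/
structure Hyp (p : Set (List Om2)) (F : T → Set NmPrime) : Prop where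
  reg : ∀ t, Reg (F t)
  lin : ∀ s t, ¬ (s ≤ t ∨ t ≤ s) → ∀ q : NmPrime, q.1 ⊆ p → q ∈ F s → q ∉ F t
  hits : ∀ α : Ordinal.{0}, α < ω_ 1 → ∀ q : NmPrime, q.1 ⊆ p →
    ∃ r, r ≤ q ∧ ∃ t, ht t = α ∧ r ∈ F t
  new : ∀ S : Set T, ∀ q : NmPrime, q.1 ⊆ p →
    ¬ ((∀ t ∈ S, q ∈ F t) ∧ ∀ t, t ∉ S → ∀ r, r ≤ q → r ∉ F t)
  downF : ∀ s t : T, s ≤ t → ∀ q : NmPrime, q.1 ⊆ p → q ∈ F t → q ∈ F s

lemma reg_meets (N : Set NmPrime) : Reg (meets N) where
  down := fun _ hp _ hq => down_meets N _ hp _ hq
  dense := by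
    intro p h q hq
    obtain ⟨r, hr, hm⟩ := h q hq
    obtain ⟨r', hr', s, hs, hrs⟩ := hm r le_rfl
    exact ⟨r', hr'.trans hr, s, hs, hrs⟩

lemma hyp_of_mem {B : T → Set NmPrime} {p : NmPrime}
    (h : p ∈ fand (IsCofinalBranch B) (IsNew B)) : Hyp p.1 (fun t => meets (B t)) := by
  obtain ⟨⟨h1, h2, h3⟩, h4⟩ := h
  refine ⟨fun t => reg_meets _, ?_, ?_, ?_, ?_⟩
  · intro s t hst q hq hs ht'
    exact h1 s t hst q hq ⟨hs, ht'⟩
  · intro α hα q hq
    obtain ⟨r, hr, t, ht1, ht2⟩ := mem_fex.1 (h3 α hα) q hq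
    exact ⟨r, hr, t, ht1, ht2⟩
  · intro S q hq hS
    refine h4 S q hq ⟨fun t ht' => hS.1 t ht', fun t ht' r hr => hS.2 t ht' r hr⟩
  · intro s t hst q hq hqt
    apply (reg_meets (B s)).dense
    intro r hr
    obtain ⟨r', hr', hm⟩ := mem_fimp.1 (h2 s t hst) r (hr.trans hq)
      ((reg_meets (B t)).down _ hqt r hr)
    exact ⟨r', hr', hm⟩

/-- The pure extensions of a condition decide incomparable nodes to be in the branch. -/
lemma split {p : Set (List Om2)} {F : T → Set NmPrime} (hT : IsOmegaOneTree T) (H : Hyp p F)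
    {u : List Om2} {r : Set (List Om2)} (hr : Cd u r) (hrp : r ⊆ p) :
    ∃ t0 t1 : T, ¬ (t0 ≤ t1 ∨ t1 ≤ t0) ∧
      (∃ r0, r0 ⊆ r ∧ ∃ h : Cd u r0, h.c ∈ F t0) ∧ (∃ r1, r1 ⊆ r ∧ ∃ h : Cd u r1, h.c ∈ F t1) := by
  classical
  by_contra hcon
  push Not at hcon
  let TT : Set T := {t | ∃ r0, r0 ⊆ r ∧ ∃ h : Cd u r0, h.c ∈ F t}
  have hchain : ∀ s ∈ TT, ∀ t ∈ TT, s ≤ t ∨ t ≤ s := by
    rintro s ⟨r0, h1, h2, h3⟩ t ⟨r1, g1, g2, g3⟩
    by_contra hc
    exact hcon s t (not_or.1 hc) ⟨r0, h1, h2, h3⟩ r1 g1 g2 g3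
  -- each level is decided purely
  have hlev : ∀ α : Ordinal.{0}, α < ω_ 1 → ∀ q, q ⊆ r → Cd u q →
      ∃ t, ht t = α ∧ ∃ q', q' ⊆ q ∧ ∃ h : Cd u q', h.c ∈ F t := by
    intro α hα q hqr hq
    obtain ⟨q', h1, h2, a, h3⟩ := pure_decision (A := {t : T // ht t = α})
      (D := fun t => F t.1) (by
        have := (hT.level_countable α).le_aleph0
        exact this.trans (Cardinal.aleph0_le_aleph 1)) (fun t => H.reg _) hq (by
        intro r' hr'
        obtain ⟨r'', h1, t, h2, h3⟩ := H.hits α hα r' (hr'.trans (hqr.trans hrp))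
        exact ⟨r'', h1, ⟨t, h2⟩, h3⟩)
    exact ⟨a.1, a.2, q', h1, h2, h3⟩
  -- some element of the chain is purely decided not to be in the branch
  let A : Type := {t : T // t ∈ TT}
  have hA : #A ≤ ℵ_ 1 := by
    have hinj : Function.Injective (fun t : A => (⟨ht t.1, hT.height_lt t.1⟩ : Set.Iio (ω_ 1))) := by
      rintro ⟨s, hs⟩ ⟨t, ht'⟩ h
      have h' : ht s = ht t := congrArg Subtype.val h
      apply Subtype.ext
      rcases hchain s hs t ht' with h1 | h1
      · rcases h1.lt_or_eq with h2 | h2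
        · exact absurd h' (ne_of_lt (ht_lt h2))
        · exact h2
      · rcases h1.lt_or_eq with h2 | h2
        · exact absurd h' (ne_of_gt (ht_lt h2))
        · exact h2.symm
    have h1 := Cardinal.mk_le_of_injective
      (((Ordinal.ToType.mk (o := ω_ 1)).injective).comp hinj)
    refine h1.trans ?_
    simp
  obtain ⟨q', h1, h2, a, h3⟩ := pure_decision (A := A)
      (D := fun t => {q | ∀ q', q' ≤ q → q' ∉ F t.1}) hA (fun t => ⟨fun x hx y hy z hz =>
        hx z (hz.trans hy), fun x hx y hy hyF => by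
          obtain ⟨z, hz, hzz⟩ := hx y hy
          exact hzz z le_rfl ((H.reg _).down _ hyF z hz)⟩) hr (by
      intro q hq
      have hn := H.new TT q (hq.trans hrp)
      rw [not_and_or] at hn
      rcases hn with hn | hn
      · push Not at hn
        obtain ⟨t, ht', hqt⟩ := hn
        -- q does not force t into the branch
        have : ∃ q', q' ≤ q ∧ ∀ q'', q'' ≤ q' → q'' ∉ F t := by
          by_contra hc
          push Not at hc
          exact hqt ((H.reg t).dense q hc)
        obtain ⟨q', hq', hqq⟩ := this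
        exact ⟨q', hq', ⟨t, ht'⟩, hqq⟩
      · push Not at hn
        obtain ⟨t, ht', q', hq', hqt⟩ := hn
        -- the element of TT of the same height is excluded
        obtain ⟨s, hs, q1, hq1, hc1, hq1F⟩ := hlev (ht t) (hT.height_lt t) r subset_rfl hr
        have hsTT : s ∈ TT := ⟨q1, hq1, hc1, hq1F⟩
        refine ⟨q', hq', ⟨s, hsTT⟩, fun q'' hq'' hqF => ?_⟩
        have hne : ¬ (s ≤ t ∨ t ≤ s) := by
          rintro (h | h)
          · rcases h.lt_or_eq with h2 | h2
            · exact absurd hs (ne_of_lt (ht_lt h2))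
            · rw [h2] at hsTT; exact ht' hsTT
          · rcases h.lt_or_eq with h2 | h2
            · exact absurd hs (ne_of_gt (ht_lt h2))
            · rw [← h2] at hsTT; exact ht' hsTT
        have hsubp : q''.1 ⊆ p := by
          have h5 : q''.1 ⊆ q'.1 := hq''
          have h6 : q'.1 ⊆ q.1 := hq'
          exact h5.trans (h6.trans (hq.trans hrp))
        exact H.lin s t hne q'' hsubp hqF ((H.reg t).down _ hqt _ hq''))
  -- but it is purely decided to be in the branch
  obtain ⟨t, ht', q2, hq2, hc2, hq2F⟩ := hlev (ht a.1) (hT.height_lt a.1) q' h1 h2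
  have htT : t ∈ TT := ⟨q2, hq2.trans h1, hc2, hq2F⟩
  have hta : t = a.1 := by
    rcases hchain t htT a.1 a.2 with h | h
    · rcases h.lt_or_eq with h5 | h5
      · exact absurd ht' (ne_of_lt (ht_lt h5))
      · exact h5
    · rcases h.lt_or_eq with h5 | h5
      · exact absurd ht' (ne_of_gt (ht_lt h5))
      · exact h5.symm
  rw [hta] at hq2F
  exact h3 hc2.c hq2 hq2F

/-! ### Positions -/

/-- The conditions below `p`, with their stems. -/
structure Node (p : Set (List Om2)) where
  /-- the stem -/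
  s : List Om2
  /-- the tree -/
  r : Set (List Om2)
  cd : Cd s r
  sub : r ⊆ p

open Classical in
/-- passing to an immediate successor of the stem. -/
noncomputable def ch {p : Set (List Om2)} (x : Node p) (i : Om2) : Node p :=
  if h : i ∈ succs x.r x.s then
    ⟨x.s ++ [i], rs x.r (x.s ++ [i]), x.cd.restr h (List.prefix_append _ _),
      (rs_sub _ _).trans x.sub⟩
  else x

lemma ch_s {p : Set (List Om2)} {x : Node p} {i : Om2} (h : i ∈ succs x.r x.s) :
    (ch x i).s = x.s ++ [i] := by
  unfold ch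
  rw [dif_pos h]

lemma ch_r {p : Set (List Om2)} {x : Node p} {i : Om2} (h : i ∈ succs x.r x.s) :
    (ch x i).r = rs x.r (x.s ++ [i]) := by
  unfold ch
  rw [dif_pos h]

/-- A choice of splitting extensions. -/
structure Choice (p : Set (List Om2)) (F : T → Set NmPrime) where
  t : Node p → Bool → T
  R : Node p → Bool → Node p
  inc : ∀ x, ¬ (t x true ≤ t x false ∨ t x false ≤ t x true)
  stem : ∀ x b, (R x b).s = x.s
  sub : ∀ x b, (R x b).r ⊆ x.r
  mem : ∀ x b, (R x b).cd.c ∈ F (t x b)

lemma exists_choice {p : Set (List Om2)} {F : T → Set NmPrime} (hT : IsOmegaOneTree T)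
    (H : Hyp p F) : Nonempty (Choice p F) := by
  choose t0 t1 h1 h2 h3 using fun x : Node p => split hT H x.cd x.sub
  choose r0 h4 h5 h6 using h2
  choose r1 h7 h8 h9 using h3
  refine ⟨⟨fun x b => cond b (t0 x) (t1 x), fun x b => cond b
    ⟨x.s, r0 x, h5 x, (h4 x).trans x.sub⟩ ⟨x.s, r1 x, h8 x, (h7 x).trans x.sub⟩,
    h1, ?_, ?_, ?_⟩⟩
  · intro x b; cases b <;> rfl
  · intro x b
    cases b
    · exact h7 x
    · exact h4 x
  · intro x b
    cases b
    · exact h9 x
    · exact h6 x

variable {p : Set (List Om2)} {F : T → Set NmPrime}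

/-- the bound attached to a position. -/
noncomputable def Choice.al (c : Choice p F) (x : Node p) : Ordinal.{0} :=
  max (ht (c.t x true)) (ht (c.t x false))

lemma Choice.ht_le (c : Choice p F) (x : Node p) (b : Bool) : ht (c.t x b) ≤ c.al x := by
  cases b
  · exact le_max_right _ _
  · exact le_max_left _ _

/-- Bad positions with their ranks. -/
inductive BadR (c : Choice p F) (δ : Ordinal.{0}) : Ordinal.{0} → Node p → Prop
  | stop (o : Ordinal.{0}) (x : Node p) (h : δ ≤ c.al x) : BadR c δ o x
  | step (o : Ordinal.{0}) (x : Node p) (b : Bool) (A : Set Om2) (hA : #A ≤ ℵ_ 1)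
      (o' : Om2 → Ordinal.{0})
      (h1 : ∀ i, i ∈ succs (c.R x b).r (c.R x b).s → i ∉ A → o' i < o)
      (h2 : ∀ i, i ∈ succs (c.R x b).r (c.R x b).s → i ∉ A → BadR c δ (o' i) (ch (c.R x b) i)) :
      BadR c δ o x

/-- Bad positions. -/
def Bad (c : Choice p F) (δ : Ordinal.{0}) (x : Node p) : Prop := ∃ o, BadR c δ o x

lemma not_bad {c : Choice p F} {δ : Ordinal.{0}} {x : Node p} (h : ¬ Bad c δ x) :
    c.al x < δ ∧ ∀ b, #({i | i ∈ succs (c.R x b).r (c.R x b).s ∧
      ¬ Bad c δ (ch (c.R x b) i)} : Set Om2) = ℵ_ 2 := by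
  classical
  constructor
  · by_contra hc
    exact h ⟨0, BadR.stop 0 x (not_lt.1 hc)⟩
  · intro b
    by_contra hc
    rw [large_iff, not_not] at hc
    apply h
    let o' : Om2 → Ordinal.{0} := fun i =>
      if h : Bad c δ (ch (c.R x b) i) then h.choose else 0
    have ho' : ∀ i, Bad c δ (ch (c.R x b) i) → BadR c δ (o' i) (ch (c.R x b) i) := by
      intro i hi
      simp only [o', dif_pos hi]
      exact hi.choose_spec
    refine ⟨(⨆ i, o' i) + 1, BadR.step _ x b _ hc o' ?_ ?_⟩
    · intro i _ _
      exact lt_of_le_of_lt (Ordinal.le_iSup o' i) (lt_add_one _)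
    · intro i hi hiA
      apply ho'
      by_contra hb
      exact hiA ⟨hi, hb⟩

/-! ### Some position tree is not bad -/

/-- the countable ordinals as a type. -/
abbrev Om1 : Type := (ω_ 1).ToType

/-- the value of an element. -/
noncomputable def val (d : Om1) : Ordinal.{0} := (Ordinal.ToType.mk.symm d : Set.Iio (ω_ 1)).1

lemma exists_val {δ : Ordinal.{0}} (h : δ < ω_ 1) : ∃ d : Om1, val d = δ :=
  ⟨Ordinal.ToType.mk ⟨δ, h⟩, by simp [val]⟩

/-- A state of the simultaneous play against all the strategies. -/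
structure State (c : Choice p F) where
  x : Node p
  S : Om1 → Option Ordinal.{0}
  inv : ∀ d o, S d = some o → BadR c (val d) o x

lemma next_state {c : Choice p F} (st : State c) : ∃ (e : Om1 → Bool) (nx : Bool → State c),
    ∀ d o, st.S d = some o → c.al st.x < val d → ∃ o', o' < o ∧ (nx (e d)).S d = some o' := by
  classical
  have h : ∀ d, ∃ (b : Bool) (A : Set Om2) (o' : Om2 → Ordinal.{0}), #A ≤ ℵ_ 1 ∧
      ∀ o, st.S d = some o → c.al st.x < val d →
        ∀ i, i ∈ succs (c.R st.x b).r (c.R st.x b).s → i ∉ A →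
          o' i < o ∧ BadR c (val d) (o' i) (ch (c.R st.x b) i) := by
    intro d
    rcases hS : st.S d with _ | o
    · exact ⟨true, ∅, fun _ => 0, by simp, fun o ho => by simp at ho⟩
    · cases st.inv d o hS with
      | stop _ _ h1 =>
        refine ⟨true, ∅, fun _ => 0, by simp, fun o' _ hlt => ?_⟩
        exact absurd hlt (not_lt.2 h1)
      | step _ _ b A hA o' h1 h2 =>
        refine ⟨b, A, o', hA, ?_⟩
        intro o'' ho'' _ i hi hiA
        have : o = o'' := by simpa using ho''
        subst this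
        exact ⟨h1 i hi hiA, h2 i hi hiA⟩
  choose e A o' hA hmain using h
  have hcard : #(⋃ d, A d : Set Om2) ≤ ℵ_ 1 := small_iUnion (by simp) hA
  have hi : ∀ b, ∃ i, i ∈ succs (c.R st.x b).r (c.R st.x b).s ∧ i ∉ ⋃ d, A d := by
    intro b
    have h1 := (c.R st.x b).cd.stem.large _ (c.R st.x b).cd.stem.mem (List.prefix_refl _)
    obtain ⟨i, hi1, hi2⟩ := large_nonempty (large_sdiff h1 hcard)
    exact ⟨i, hi1, hi2⟩
  choose i hi1 hi2 using hi
  refine ⟨e, fun b => ⟨ch (c.R st.x b) (i b), fun d =>
    if e d = b ∧ c.al st.x < val d ∧ (st.S d).isSome then some (o' d (i b)) else none, ?_⟩, ?_⟩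
  · intro d o ho
    by_cases hc : e d = b ∧ c.al st.x < val d ∧ (st.S d).isSome
    · rw [if_pos hc] at ho
      obtain ⟨o0, ho0⟩ := Option.isSome_iff_exists.1 hc.2.2
      have hb : e d = b := hc.1
      have h3 := (hmain d o0 ho0 hc.2.1 (i b) (by rw [hb]; exact hi1 b)
        (fun h => hi2 b (mem_iUnion.2 ⟨d, h⟩))).2
      rw [hb] at h3
      have : o' d (i b) = o := by simpa using ho
      rw [← this]
      exact h3
    · rw [if_neg hc] at ho
      simp at ho
  · intro d o ho hlt
    refine ⟨o' d (i (e d)), ?_, ?_⟩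
    · exact (hmain d o ho hlt (i (e d)) (hi1 _) (fun h => hi2 _ (mem_iUnion.2 ⟨d, h⟩))).1
    · show (if e d = e d ∧ c.al st.x < val d ∧ (st.S d).isSome then
        some (o' d (i (e d))) else none) = _
      rw [if_pos ⟨rfl, hlt, by rw [ho]; rfl⟩]

lemma exists_not_bad (hT : IsOmegaOneTree T) (c : Choice p F) (x0 : Node p) :
    ∃ δ, δ < ω_ 1 ∧ ¬ Bad c δ x0 := by
  classical
  by_contra hcon
  push Not at hcon
  have hval : ∀ d : Om1, Bad c (val d) x0 := fun d =>
    hcon _ (Ordinal.ToType.mk.symm d : Set.Iio (ω_ 1)).2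
  choose o0 ho0 using hval
  let st0 : State c := ⟨x0, fun d => some (o0 d), fun d o h => by
    have : o0 d = o := by simpa using h
    rw [← this]; exact ho0 d⟩
  choose e nx hnx using fun st : State c => next_state st
  let st : List Bool → State c := fun ρ => List.rec st0 (fun b _ s => nx s b) ρ
  have st_nil : st [] = st0 := rfl
  have st_cons : ∀ b ρ, st (b :: ρ) = nx (st ρ) b := fun b ρ => rfl
  have hal : ∀ x, c.al x < ω_ 1 := fun x => max_lt (hT.height_lt _) (hT.height_lt _)
  have hδ : (⨆ ρ, (c.al (st ρ).x)) + 1 < ω_ 1 := by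
    refine (Cardinal.isSuccLimit_omega 1).add_one_lt ?_
    exact Ordinal.iSup_lt_omega_one fun ρ => hal _
  obtain ⟨d, hd⟩ := exists_val hδ
  have hlt : ∀ ρ, c.al (st ρ).x < val d := by
    intro ρ
    rw [hd]
    exact lt_of_le_of_lt (Ordinal.le_iSup (fun ρ => c.al (st ρ).x) ρ) (lt_add_one _)
  have key : ∀ o : Ordinal.{0}, ∀ ρ, (st ρ).S d ≠ some o := by
    intro o
    induction o using WellFoundedLT.induction with
    | ind o ih =>
      intro ρ hρ
      obtain ⟨o', ho', hS⟩ := hnx (st ρ) d o hρ (hlt ρ)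
      exact ih o' ho' (e (st ρ) d :: ρ) hS
  exact key (o0 d) [] rfl

/-! ### The fusion -/

lemma no_branch (hT : IsOmegaOneTree T) (H : Hyp p F) {s0 : List Om2} (hp : Cd s0 p) : False := by
  classical
  obtain ⟨c⟩ := exists_choice hT H
  let x0 : Node p := ⟨s0, p, hp, subset_rfl⟩
  obtain ⟨δ, hδ, hnb⟩ := exists_not_bad hT c x0
  -- enumerate the level
  obtain ⟨tt, htt⟩ : ∃ tt : ℕ → T, {t : T | ht t = δ} = range tt :=
    (hT.level_countable δ).exists_eq_range (hT.level_nonempty δ hδ)
  have htt' : ∀ k, ht (tt k) = δ := fun k => by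
    have : tt k ∈ {t : T | ht t = δ} := by rw [htt]; exact ⟨k, rfl⟩
    exact this
  -- the choice of the side
  have hside : ∀ k (x : Node p), ∃ b, ¬ c.t x b ≤ tt k := by
    intro k x
    by_contra hc
    push Not at hc
    exact c.inc x (hT.pred (tt k) _ _ (hc true) (hc false))
  choose E hE using hside
  let st : List Om2 → Node p := fun l =>
    List.rec x0 (fun i l' x => ch (c.R x (E l'.length x)) i) l
  have st_nil : st [] = x0 := rfl
  have st_cons : ∀ i l, st (i :: l) = ch (c.R (st l) (E l.length (st l))) i := fun i l => rfl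
  let Y : List Om2 → Node p := fun l => c.R (st l) (E l.length (st l))
  let ok : List Om2 → Prop := fun l => List.rec True (fun i l' h =>
    h ∧ i ∈ succs (Y l').r (Y l').s ∧ ¬ Bad c δ (ch (Y l') i)) l
  have ok_nil : ok [] := trivial
  have ok_cons : ∀ i l, ok (i :: l) ↔
      (ok l ∧ i ∈ succs (Y l).r (Y l).s ∧ ¬ Bad c δ (ch (Y l) i)) := fun i l => Iff.rfl
  have hst : ∀ l, ok l → (st l).s = s0 ++ l.reverse ∧ ¬ Bad c δ (st l) := by
    intro l
    induction l with
    | nil => intro _; exact ⟨by simp [st_nil, x0], hnb⟩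
    | cons i l ih =>
      intro h
      obtain ⟨h1, h2, h3⟩ := (ok_cons i l).1 h
      obtain ⟨g1, g2⟩ := ih h1
      refine ⟨?_, h3⟩
      rw [st_cons, ch_s h2, c.stem, g1]
      simp
  have ok_suffix : ∀ l l', l' <:+ l → ok l → ok l' := by
    intro l
    induction l with
    | nil =>
      intro l' h _
      rw [List.suffix_nil.1 h]; exact ok_nil
    | cons i l ih =>
      intro l' h hok
      rcases List.suffix_cons_iff.1 h with h' | h'
      · rw [h']; exact hok
      · exact ih l' h' ((ok_cons i l).1 hok).1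
  have st_sub : ∀ l l', l' <:+ l → ok l → (st l).r ⊆ (st l').r := by
    intro l
    induction l with
    | nil =>
      intro l' h _
      rw [List.suffix_nil.1 h]
    | cons i l ih =>
      intro l' h hok
      rcases List.suffix_cons_iff.1 h with h' | h'
      · rw [h']
      · obtain ⟨h1, h2, h3⟩ := (ok_cons i l).1 hok
        refine Subset.trans ?_ (ih l' h' h1)
        rw [st_cons, ch_r h2]
        exact (rs_sub _ _).trans (c.sub _ _)
  let q : Set (List Om2) := {u | ∃ l, ok l ∧ u <+: s0 ++ l.reverse}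
  -- long nodes of q
  have long : ∀ u ∈ q, s0 <+: u → ∃ l, ok l ∧ u = s0 ++ l.reverse := by
    rintro u ⟨l, hl, hu⟩ ⟨v, rfl⟩
    have hv : v <+: l.reverse := (List.prefix_append_right_inj s0).1 hu
    refine ⟨v.reverse, ok_suffix l _ ?_ hl, by simp⟩
    rw [← List.reverse_prefix, List.reverse_reverse]
    exact hv
  have hq : Cd s0 q := by
    refine ⟨?_, ⟨[], ok_nil, by simp⟩, ?_, ?_⟩
    · rintro t ⟨l, hl, ht'⟩ u hu
      exact ⟨l, hl, hu.trans ht'⟩
    · rintro t ⟨l, hl, ht'⟩
      exact List.prefix_or_prefix_of_prefix ht' (List.prefix_append _ _)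
    · intro t ht' hs
      obtain ⟨l, hl, rfl⟩ := long t ht' hs
      have h1 := (not_bad (hst l hl).2).2 (E l.length (st l))
      rw [large_iff] at h1 ⊢
      intro hsm
      apply h1
      refine small_mono ?_ hsm
      rintro i ⟨hi1, hi2⟩
      exact ⟨i :: l, (ok_cons i l).2 ⟨hl, hi1, hi2⟩, by simp⟩
  have hqp : q ⊆ p := by
    rintro u ⟨l, hl, hu⟩
    have h1 : s0 ++ l.reverse ∈ p := by
      have := (st l).sub (st l).cd.stem.mem
      rwa [(hst l hl).1] at this
    exact hp.tree _ h1 u hu
  -- q forces that no element of the level is in the branch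
  have main : ∀ k, ∀ r : NmPrime, r.1 ⊆ q → r ∉ F (tt k) := by
    intro k r hr hrF
    obtain ⟨u, hu⟩ := exists_cd r
    obtain ⟨v, hv, huv, hlen⟩ := exists_long hu (s0.length + k + 1)
    have hc := hu.restr hv huv
    have hs0v : s0 <+: v := (stem_prefix hq hu hr).trans huv
    obtain ⟨l, hl, hvl⟩ := long v (hr hv) hs0v
    have hll : k + 1 ≤ l.length := by
      rw [hvl] at hlen
      simp at hlen
      omega
    -- split the list at length k
    obtain ⟨i, l'', hsuf, hlk⟩ : ∃ i l'', (i :: l'') <:+ l ∧ l''.length = k := by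
      have h1 : (l.drop (l.length - (k + 1))).length = k + 1 := by
        rw [List.length_drop]; omega
      rcases hdr : l.drop (l.length - (k + 1)) with _ | ⟨i, l''⟩
      · rw [hdr] at h1; simp at h1
      · refine ⟨i, l'', ?_, ?_⟩
        · rw [← hdr]; exact List.drop_suffix _ _
        · rw [hdr] at h1; simpa using h1
    have hokil := ok_suffix l _ hsuf hl
    obtain ⟨hok'', hi1, hi2⟩ := (ok_cons i l'').1 hokil
    have hYsub : (st (i :: l'')).r ⊆ (Y l'').r := by
      rw [st_cons, ch_r hi1]
      exact rs_sub _ _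
    -- the restriction of r is below the chosen condition
    have hsub : rs r.1 v ⊆ (Y l'').r := by
      rintro w ⟨hw, hwv⟩
      rcases hwv with hwv | hwv
      · have h1 : v ∈ (st l).r := by
          have := (st l).cd.stem.mem
          rwa [(hst l hl).1, ← hvl] at this
        exact hYsub (st_sub l _ hsuf hl ((st l).cd.tree v h1 w hwv))
      · obtain ⟨m, hm, rfl⟩ := long w (hr hw) (hs0v.trans hwv)
        have hlm : l <:+ m := by
          rw [hvl] at hwv
          have := (List.prefix_append_right_inj s0).1 hwv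
          exact List.reverse_prefix.1 this
        have h1 : s0 ++ m.reverse ∈ (st m).r := by
          have := (st m).cd.stem.mem
          rwa [(hst m hm).1] at this
        exact hYsub (st_sub m _ (hsuf.trans hlm) hm h1)
    have hrF' : hc.c ∈ F (tt k) := (H.reg _).down _ hrF _ (rs_sub _ _ : rs r.1 v ⊆ r.1)
    have hcF : hc.c ∈ F (c.t (st l'') (E l''.length (st l''))) :=
      (H.reg _).down _ (c.mem _ _) _ hsub
    have hcp : rs r.1 v ⊆ p := (rs_sub _ _).trans (hr.trans hqp)
    have hcomp : ¬ (c.t (st l'') (E l''.length (st l'')) ≤ tt k ∨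
        tt k ≤ c.t (st l'') (E l''.length (st l''))) := by
      rintro (h | h)
      · have := hE l''.length (st l'')
        rw [hlk] at this
        rw [hlk] at h
        exact this h
      · have h1 : ht (c.t (st l'') (E l''.length (st l''))) < ht (tt k) := by
          rw [htt' k]
          exact lt_of_le_of_lt (c.ht_le _ _) (not_bad (hst l'' hok'').2).1
        rcases h.lt_or_eq with h2 | h2
        · exact absurd (ht_lt h2) (not_lt.2 h1.le)
        · rw [← h2] at h1; exact lt_irrefl _ h1
    exact H.lin _ _ hcomp hc.c hcp hcF hrF'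
  obtain ⟨r, hr, t, ht1, ht2⟩ := H.hits δ hδ hq.c hqp
  have : t ∈ {t : T | ht t = δ} := ht1
  rw [htt] at this
  obtain ⟨k, rfl⟩ := this
  exact main k r hr ht2

end

/-- In ZFC: for every `ω₁`-tree `T`, every condition of the Laver-like Namba forcing forces that
there is no cofinal branch of `T` which is not in the ground model. -/
theorem result (T : Type) [PartialOrder T] [WellFoundedLT T] (hT : IsOmegaOneTree T)
    (p : NmPrime) :
    p ∈ fnot (fex fun B : T → Set NmPrime => fand (IsCofinalBranch B) (IsNew B)) := by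
  intro q _ hq
  obtain ⟨r, -, B, hB⟩ := mem_fex.1 hq q le_rfl
  obtain ⟨s, hs⟩ := exists_cd r
  exact no_branch hT (hyp_of_mem hB) hs

end Pool.Agent.Results.MP_096ca0_lc.NoNewBranch
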